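import Pool.Agent.H620.Rel.Class

/-!
# The invariant sets of the `3x+d` map are hard for circuits of small depth, even if the residue modulo `d` is given

Let `d` be odd and prime to `3`, and `T x = x / 2` or `(3 x + d) / 2` on the integers. The map multiplies the residue modulo `d`
by `1 / 2` or `3 / 2`. So the classes of the equivalence relation `x ~ y`: `x = 2 ^ i 3 ^ j y` modulo `d` for some `i, j`, are
invariant sets; we call them the trivial ones. Such a set is not easy for circuits of small depth that read the binary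
digits of `x`, just because the residue of `x` modulo `d` is not. But it becomes trivial if the residue modulo `d` is
given. We show that all the other invariant sets remain hard.

Theorem. (1) Let `S` be a set of integers with `x ∈ S ↔ T x ∈ S` for all `x`, let `s = 1` or `s = -1` and `0 ≤ r < |d|`. Suppose
that among the integers of the sign of `s` that are prime to `3` and equivalent to `s r` there are elements of `S` and of
the complement. Then the set of the `n ≥ 0` with `s (|d| n + r) ∈ S` is hard: for all `0 < c < 1 / 2`,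

(a) its total influence on the `k` lowest binary digits, that is the mean number of the binary digits of `n < 2 ^ k` whose
change moves `n` from the set to the complement or back, is larger than `k ^ c` for infinitely many `k`;

(b) for infinitely many `k` and all `D ≥ 2` with `(D - 1) (log log k + 1) ≤ c log k`, each circuit of depth at most `D` (with gates
NOT, AND, OR of unbounded fan-in) and size at most `exp (k ^ (c / (D - 1)))` is wrong about the membership in the set for
more than `2 ^ k / k ^ (1 - c)` of the `n < 2 ^ k`.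

(2) For example, for `d = 5` and each of the five known positive cycles prime to `5`, those of `1, 19, 23, 187, 347`, the set
of the `n ≥ 0` such that the trajectory of `5 n + r` enters the cycle is hard, for each `r = 1, 2, 3, 4`.

(3) For every odd `d` prime to `3`, there is a finite set met by all trajectories of `T` if and only if there is a finite set
`F` with `T F ⊆ F`, containing all `x` with `|x| ≤ 3 |d|`, such that for all `s` and `r` the set of the `n` such that the
trajectory of `s (|d| n + r)` avoids `F` is in (nonuniform) `AC0`; also if and only if there is such an `F` for which these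
sets are decided by circuits of polynomial size and of depth `a log k / log log k`, for some `a < 1 / 2`; also if and only if
there is such an `F` for which they can be decided up to a small proportion `1 / k ^ (1 - c)` of exceptions by circuits as in (b).

Proof. Write `x = |d| q + r`. As `d` is odd, one can add to `q` an integer `f`, such that `|d| f + r = 2 ^ (J + b) ρ` is divisible
by `2 ^ (J + b)`. Then `T ^ J (|d| q + 2 ^ (J + b) ρ) = |d| T_1 ^ J q + 3 ^ o 2 ^ b ρ`, where `T_1` is the `3x+1` (or `3x-1`) map and `o`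
the number of the odd terms, and trajectories of such numbers coalesce when those of the `q` do, with the same number
of odd terms. If the total influence is small, there is a window `[J, J + 2 b)` of digits with small influences, also after
the translation by `f` (a carry runs through more than `b` digits only with probability `2 ^ (-b)`). Then the argument for the
`3x+1` map shows that the membership of `x` is, for most `x`, that of a point near to `3 ^ o x / 2 ^ J` in the class
of `3 ^ o 2 ^ (- J) r` modulo `d`; this is again the class of `r` if `J` and `o` are divisible by `φ(d)`. The composition of such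
statements through all the scales contradicts the theorem of the library (`ResidueClasses`) by which the invariant set has a
natural density in the residue class, which is here strictly between `0` and `1 / |d|`.
-/

set_option autoImplicit false

namespace Pool.Agent.Results.MP_d0d59f_nt.CircuitsGivenResidue

open Filter
open DomAC0 (Circuit)

/-- The `3x+d` map on the integers. -/
def T (d x : ℤ) : ℤ := if x % 2 = 0 then x / 2 else (3 * x + d) / 2

/-- `x` and `y` agree modulo `d` up to factors `2` and `3`. -/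
def Same (d x y : ℤ) : Prop := ∃ i j : ℕ, x ≡ 2 ^ i * 3 ^ j * y [ZMOD d]

/-- The elements of `S` in the residue class of `s r` modulo `d`, of the sign of `s`: the set of the `n ≥ 0` such that
`s (|d| n + r) ∈ S`. -/
def part (d s : ℤ) (r : ℕ) (S : Set ℤ) : Set ℕ := {n | s * (|d| * (n : ℤ) + r) ∈ S}

/-- The integers whose trajectory avoids `F`. -/
def Avoid (d : ℤ) (F : Finset ℤ) : Set ℤ := {x | ∀ k : ℕ, (T d)^[k] x ∉ F}

/-- The integers whose trajectory passes through `c`. -/
def Basin (d c : ℤ) : Set ℤ := {x | ∃ k : ℕ, (T d)^[k] x = c}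

/-- The `k` lowest binary digits of `n`. -/
def digits (k n : ℕ) : Fin k → Bool := fun i => n.testBit i

/-- The total influence of `S` on the integers with `k` binary digits: the mean, for `n < 2 ^ k`, of the number of the
`i < k` such that exactly one of `n` and the integer `n xor 2 ^ i`, obtained by changing the digit `i` of `n`, is in `S`. -/
noncomputable def influence (S : Set ℕ) (k : ℕ) : ℝ :=
  ({p : ℕ × ℕ | p.1 < 2 ^ k ∧ p.2 < k ∧ ¬ (p.1 ∈ S ↔ p.1 ^^^ 2 ^ p.2 ∈ S)}.ncard : ℝ) / 2 ^ k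

/-- The number of the `n < 2 ^ k` for which the circuit `Γ` is wrong about the membership in `S`. -/
noncomputable def errors (S : Set ℕ) {k : ℕ} (Γ : Circuit (Fin k)) : ℕ :=
  {n : ℕ | n < 2 ^ k ∧ ¬ (Γ.eval (digits k n) = true ↔ n ∈ S)}.ncard

/-- `S` is hard: for each `0 < c < 1 / 2`, the total influence of `S` is larger than `k ^ c` for infinitely many `k`, and, for
infinitely many `k` and all `D ≥ 2` with `(D - 1) (log log k + 1) ≤ c log k`, each circuit of depth at most `D` and size at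
most `exp (k ^ (c / (D - 1)))` is wrong about the membership in `S` for more than `2 ^ k / k ^ (1 - c)` of the `n < 2 ^ k`. -/
def Hard (S : Set ℕ) : Prop := ∀ c : ℝ, 0 < c → c < 1 / 2 →
  (∃ᶠ k : ℕ in atTop, (k : ℝ) ^ c < influence S k) ∧
  ∃ᶠ k : ℕ in atTop, ∀ D : ℕ, 2 ≤ D → ((D : ℝ) - 1) * (Real.log (Real.log k) + 1) ≤ c * Real.log k →
    ∀ Γ : Circuit (Fin k), Γ.depth ≤ D → (Γ.size : ℝ) ≤ Real.exp ((k : ℝ) ^ (c / ((D : ℝ) - 1))) →
      (2 : ℝ) ^ k / (k : ℝ) ^ (1 - c) < errors S Γ

/-- `S` is in `AC0`: the membership of the integers `1 ≤ n < 2 ^ k` is decided by circuits of constant depth and polynomial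
size. -/
def AC0 (S : Set ℕ) : Prop :=
  ∃ D A : ℕ, ∀ k : ℕ, 1 ≤ k → ∃ Γ : Circuit (Fin k), Γ.depth ≤ D ∧ Γ.size ≤ k ^ A ∧
    ∀ n, 1 ≤ n → n < 2 ^ k → (Γ.eval (digits k n) = true ↔ n ∈ S)

/-- For all large `k`, the membership of the integers `1 ≤ n < 2 ^ k` in `S` is decided by circuits of polynomial size and
of depth at most `a log k / log log k`, where `a < 1 / 2`. -/
def Poly (S : Set ℕ) : Prop :=
  ∃ (A : ℕ) (a : ℝ), a < 1 / 2 ∧ ∀ᶠ k : ℕ in atTop, ∃ Γ : Circuit (Fin k), Γ.size ≤ k ^ A ∧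
    (Γ.depth : ℝ) ≤ a * (Real.log k / Real.log (Real.log k)) ∧
    ∀ n, 1 ≤ n → n < 2 ^ k → (Γ.eval (digits k n) = true ↔ n ∈ S)

/-- For some `0 < c < 1 / 2` and all large `k` there are a `D ≥ 2` with `(D - 1) (log log k + 1) ≤ c log k` and a circuit of
depth at most `D` and size at most `exp (k ^ (c / (D - 1)))` that is wrong about the membership in `S` for at most
`2 ^ k / k ^ (1 - c)` of the `n < 2 ^ k`. -/
def Approx (S : Set ℕ) : Prop :=
  ∃ c : ℝ, 0 < c ∧ c < 1 / 2 ∧ ∀ᶠ k : ℕ in atTop, ∃ D : ℕ, 2 ≤ D ∧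
    ((D : ℝ) - 1) * (Real.log (Real.log k) + 1) ≤ c * Real.log k ∧
    ∃ Γ : Circuit (Fin k), Γ.depth ≤ D ∧ (Γ.size : ℝ) ≤ Real.exp ((k : ℝ) ^ (c / ((D : ℝ) - 1))) ∧
      (errors S Γ : ℝ) ≤ (2 : ℝ) ^ k / (k : ℝ) ^ (1 - c)

/-- There is a finite set `F` with `T F ⊆ F`, containing all `x` with `|x| ≤ 3 |d|`, such that `easy` holds for the part in
each residue class modulo `d`, for both signs, of the set of the integers whose trajectory avoids `F`. -/
def Avoidable (d : ℤ) (easy : Set ℕ → Prop) : Prop :=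
  ∃ F : Finset ℤ, (∀ x ∈ F, T d x ∈ F) ∧ (∀ x : ℤ, |x| ≤ 3 * |d| → x ∈ F) ∧
    ∀ s : ℤ, (s = 1 ∨ s = -1) → ∀ r : ℕ, (r : ℤ) < |d| → easy (part d s r (Avoid d F))

open Pool.Agent.H620

theorem part_eq (d s : ℤ) (r : ℕ) (S : Set ℤ) : part d s r S = {n : ℕ | s * (d.natAbs * (n : ℤ) + r) ∈ S} := by
  unfold part
  rw [Int.abs_eq_natAbs]

theorem same_iff {d x y : ℤ} : Same d x y ↔ Pool.Agent.Results.MP_7f88e4_nt.ResidueClasses.Rel d.natAbs x y := by
  unfold Same Pool.Agent.Results.MP_7f88e4_nt.ResidueClasses.Rel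
  constructor
  · rintro ⟨i, j, h⟩
    exact ⟨i, j, by rw [Int.modEq_iff_dvd] at h ⊢; exact Int.natAbs_dvd.2 h⟩
  · rintro ⟨i, j, h⟩
    exact ⟨i, j, by rw [Int.modEq_iff_dvd] at h ⊢; exact Int.natAbs_dvd.1 h⟩

theorem large {d : ℤ} (hd : Odd d) (hd3 : ¬ (3 : ℤ) ∣ d) {S : Set ℤ} (hS : ∀ x, x ∈ S ↔ T d x ∈ S) {s : ℤ}
    (hs : s = 1 ∨ s = -1) {r : ℕ} (hr : (r : ℤ) < |d|)
    (h1 : ∃ a ∈ S, 0 < s * a ∧ ¬ (3 : ℤ) ∣ a ∧ Same d (s * r) a)
    (h2 : ∃ b ∉ S, 0 < s * b ∧ ¬ (3 : ℤ) ∣ b ∧ Same d (s * r) b) :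
    Inf2.Large (fun n => n ∈ part d s r S) := by
  have h := Rel.class_large (Int.odd_iff.1 hd) hd3 (S := S) hS hs (r := r) (by
    rw [Int.abs_eq_natAbs] at hr; exact_mod_cast hr)
    (by obtain ⟨a, g1, g2, g3, g4⟩ := h1; exact ⟨a, g1, g2, g3, same_iff.1 g4⟩)
    (by obtain ⟨a, g1, g2, g3, g4⟩ := h2; exact ⟨a, g1, g2, g3, same_iff.1 g4⟩)
  rw [part_eq]
  exact h

theorem large_hard {S : Set ℕ} (h : Inf2.Large (fun n => n ∈ S)) : Hard S :=
  fun _ hc0 hc => ⟨Inf2.large_infl h hc, Inf2.large_depth h hc0 hc⟩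

/-! ### The example `d = 5` -/

theorem basin_inv {d c : ℤ} {p : ℕ} (hp : 1 ≤ p) (hc : (T d)^[p] c = c) (x : ℤ) : x ∈ Basin d c ↔ T d x ∈ Basin d c := by
  constructor
  · rintro ⟨j, hj⟩
    rcases j with _ | j
    · obtain ⟨q, rfl⟩ : ∃ q, p = q + 1 := ⟨p - 1, by omega⟩
      have hx : x = c := hj
      exact ⟨q, by rw [hx, ← Function.iterate_succ_apply]; exact hc⟩
    · exact ⟨j, by rw [Function.iterate_succ_apply] at hj; exact hj⟩
  · rintro ⟨j, hj⟩
    exact ⟨j + 1, by rw [Function.iterate_succ_apply]; exact hj⟩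

theorem not_basin {d c : ℤ} {F : Finset ℤ} (hF : ∀ x ∈ F, T d x ∈ F) (hc : c ∉ F) {x : ℤ} (hx : x ∈ F) : x ∉ Basin d c := by
  rintro ⟨k, hk⟩
  have : ∀ j : ℕ, (T d)^[j] x ∈ F := by
    intro j
    induction j with
    | zero => exact hx
    | succ j ih => rw [Function.iterate_succ_apply']; exact hF _ ih
  rw [← hk] at hc
  exact hc (this k)

theorem same5 {x y : ℤ} (hx : x % 5 ≠ 0) (hy : y % 5 ≠ 0) : Same 5 x y := by
  have h : ∃ i : ℕ, i < 4 ∧ (x - 2 ^ i * y) % 5 = 0 := by
    have h1 : x % 5 = 1 ∨ x % 5 = 2 ∨ x % 5 = 3 ∨ x % 5 = 4 := by omega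
    have h2 : y % 5 = 1 ∨ y % 5 = 2 ∨ y % 5 = 3 ∨ y % 5 = 4 := by omega
    by_cases g0 : (x - y) % 5 = 0
    · exact ⟨0, by norm_num, by simpa using g0⟩
    · by_cases g1 : (x - 2 * y) % 5 = 0
      · exact ⟨1, by norm_num, by simpa using g1⟩
      · by_cases g2 : (x - 4 * y) % 5 = 0
        · exact ⟨2, by norm_num, by norm_num; omega⟩
        · refine ⟨3, by norm_num, ?_⟩
          norm_num
          omega
  obtain ⟨i, _, hi⟩ := h
  refine ⟨i, 0, ?_⟩
  rw [pow_zero, mul_one]
  exact (Int.modEq_iff_dvd.2 (Int.dvd_of_emod_eq_zero hi)).symm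

theorem ex5 {c : ℤ} (hc : c = 1 ∨ c = 19 ∨ c = 23 ∨ c = 187 ∨ c = 347) {r : ℕ} (hr1 : 1 ≤ r) (hr2 : r ≤ 4) :
    Hard (part 5 1 r (Basin 5 c)) := by
  apply large_hard
  have h5 : Odd (5 : ℤ) := by decide
  have h53 : ¬ (3 : ℤ) ∣ 5 := by decide
  have hr : (r : ℤ) < |5| := by norm_num; omega
  have hrm : ((1 : ℤ) * (r : ℤ)) % 5 ≠ 0 := by omega
  have hinv : ∀ x, x ∈ Basin 5 c ↔ T 5 x ∈ Basin 5 c := by
    rcases hc with rfl | rfl | rfl | rfl | rfl
    · exact basin_inv (p := 3) (by norm_num) (by decide)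
    · exact basin_inv (p := 5) (by norm_num) (by decide)
    · exact basin_inv (p := 5) (by norm_num) (by decide)
    · exact basin_inv (p := 27) (by norm_num) (by decide)
    · exact basin_inv (p := 27) (by norm_num) (by decide)
  refine large h5 h53 hinv (Or.inl rfl) hr ⟨c, ⟨0, rfl⟩, ?_, ?_, same5 hrm ?_⟩ ?_
  · rcases hc with rfl | rfl | rfl | rfl | rfl <;> norm_num
  · rcases hc with rfl | rfl | rfl | rfl | rfl <;> decide
  · rcases hc with rfl | rfl | rfl | rfl | rfl <;> decide
  · by_cases h1 : c = 1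
    · subst h1
      exact ⟨19, not_basin (F := {19, 31, 49, 76, 38}) (by decide) (by decide) (by decide), by norm_num, by decide,
        same5 hrm (by decide)⟩
    · refine ⟨1, not_basin (F := {1, 4, 2}) (by decide) ?_ (by decide), by norm_num, by decide, same5 hrm (by decide)⟩
      rcases hc with rfl | rfl | rfl | rfl | rfl
      · exact absurd rfl h1
      all_goals decide

/-! ### The equivalences -/

theorem avoid_inv {d : ℤ} {F : Finset ℤ} (hF : ∀ x ∈ F, T d x ∈ F) (x : ℤ) : x ∈ Avoid d F ↔ T d x ∈ Avoid d F := by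
  constructor
  · intro h k
    have := h (k + 1)
    rwa [Function.iterate_succ_apply] at this
  · intro h k hk
    rcases k with _ | k
    · exact h 0 (hF x hk)
    · rw [Function.iterate_succ_apply] at hk
      exact h k hk

theorem avoid_iter {d : ℤ} {F : Finset ℤ} (hF : ∀ x ∈ F, T d x ∈ F) (k : ℕ) : ∀ x, x ∈ Avoid d F ↔ (T d)^[k] x ∈ Avoid d F := by
  induction k with
  | zero => intro x; rfl
  | succ k ih => intro x; rw [avoid_inv hF, ih, Function.iterate_succ_apply]

/-- The finite set can be enlarged. -/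
theorem enlarge {d : ℤ} {F₀ : Finset ℤ} (h : ∀ x : ℤ, ∃ k : ℕ, (T d)^[k] x ∈ F₀) :
    ∃ F : Finset ℤ, (∀ x ∈ F, T d x ∈ F) ∧ (∀ x : ℤ, |x| ≤ 3 * |d| → x ∈ F) ∧ ∀ x, x ∉ Avoid d F := by
  classical
  -- the trajectories are finite
  have hfin : ∀ x : ℤ, (Set.range fun k : ℕ => (T d)^[k] x).Finite := by
    intro x
    have h1 : {k : ℕ | (T d)^[k] x ∈ F₀}.Infinite := by
      rw [Set.infinite_iff_exists_gt]
      intro m
      obtain ⟨k, hk⟩ := h ((T d)^[m + 1] x)
      refine ⟨k + (m + 1), ?_, by omega⟩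
      rw [Set.mem_ofPred_eq, Function.iterate_add_apply]
      exact hk
    obtain ⟨i, hi, j, hj, hij, heq⟩ := Set.Infinite.exists_ne_map_eq_of_mapsTo h1
      (f := fun k : ℕ => (T d)^[k] x) (t := (F₀ : Set ℤ)) (fun k hk => hk) F₀.finite_toSet
    wlog hlt : i < j generalizing i j
    · exact this j hj i hi hij.symm heq.symm (by omega)
    refine ((Set.finite_Iio j).image fun k : ℕ => (T d)^[k] x).subset ?_
    rintro _ ⟨k, rfl⟩
    have key : ∀ k : ℕ, ∃ m < j, (T d)^[k] x = (T d)^[m] x := by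
      intro k
      induction k with
      | zero => exact ⟨0, by omega, rfl⟩
      | succ k ih =>
        obtain ⟨m, hm, he⟩ := ih
        by_cases hmj : m + 1 < j
        · exact ⟨m + 1, hmj, by rw [Function.iterate_succ_apply', he, ← Function.iterate_succ_apply' (T d)]⟩
        · have : m + 1 = j := by omega
          refine ⟨i, hlt, ?_⟩
          rw [Function.iterate_succ_apply', he, ← Function.iterate_succ_apply' (T d)]
          show (T d)^[m + 1] x = (T d)^[i] x
          rw [this]
          exact heq.symm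
    obtain ⟨m, hm, he⟩ := key k
    exact ⟨m, hm, he.symm⟩
  set G : Finset ℤ := F₀ ∪ Finset.Icc (-(3 * |d|)) (3 * |d|) with hG
  have hUfin : (⋃ x ∈ G, Set.range fun k : ℕ => (T d)^[k] x).Finite := G.finite_toSet.biUnion fun x _ => hfin x
  refine ⟨hUfin.toFinset, ?_, ?_, ?_⟩
  · intro x hx
    rw [Set.Finite.mem_toFinset, Set.mem_iUnion₂] at hx ⊢
    obtain ⟨y, hy, k, hk⟩ := hx
    refine ⟨y, hy, k + 1, ?_⟩
    simp only at hk ⊢
    rw [Function.iterate_succ_apply', hk]
  · intro x hx
    rw [Set.Finite.mem_toFinset, Set.mem_iUnion₂]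
    refine ⟨x, ?_, 0, rfl⟩
    rw [hG, Finset.mem_union, Finset.mem_Icc]
    right
    exact abs_le.1 hx
  · intro x hx
    obtain ⟨k, hk⟩ := h x
    apply hx k
    rw [Set.Finite.mem_toFinset, Set.mem_iUnion₂]
    exact ⟨(T d)^[k] x, by rw [hG, Finset.mem_union]; exact Or.inl hk, 0, rfl⟩

theorem avoid_to {d : ℤ} (hd : Odd d) (hd3 : ¬ (3 : ℤ) ∣ d) (h : Avoidable d Inf2.Approx) :
    ∃ F : Finset ℤ, ∀ x : ℤ, ∃ k : ℕ, (T d)^[k] x ∈ F := by
  obtain ⟨F, hF1, hF2, hF3⟩ := h
  refine ⟨F, fun x => ?_⟩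
  by_contra hcon
  push Not at hcon
  have hx : x ∈ Avoid d F := hcon
  have hx0 : x ≠ 0 := by
    rintro rfl
    exact hx 0 (hF2 0 (by rw [abs_zero]; positivity))
  obtain ⟨k, hk⟩ := Pool.Agent.H499R2.ND.exists_prime3' hd hd3 x.natAbs x hx0 le_rfl
  have hk' : ¬ (3 : ℤ) ∣ (T d)^[k] x := hk
  set a := (T d)^[k] x with ha
  have haA : a ∈ Avoid d F := (avoid_iter hF1 k x).1 hx
  have ha0 : a ≠ 0 := by rintro h0; exact hk' (by rw [h0]; exact dvd_zero 3)
  obtain ⟨s, hs, hsa⟩ : ∃ s : ℤ, (s = 1 ∨ s = -1) ∧ 0 < s * a := by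
    rcases lt_or_gt_of_ne ha0 with h | h
    · exact ⟨-1, Or.inr rfl, by linarith⟩
    · exact ⟨1, Or.inl rfl, by linarith⟩
  have hss : s * s = 1 := by rcases hs with rfl | rfl <;> norm_num
  have hdne : d ≠ 0 := by rintro rfl; exact hd3 (dvd_zero 3)
  have hdpos : 0 < |d| := abs_pos.2 hdne
  obtain ⟨r, hr⟩ : ∃ r : ℕ, (s * a) % |d| = r := Int.eq_ofNat_of_zero_le (Int.emod_nonneg _ hdpos.ne')
  have hrd : (r : ℤ) < |d| := by rw [← hr]; exact Int.emod_lt_of_pos _ hdpos
  have hsame : ∀ y : ℤ, |d| ∣ y - r → Same d (s * r) (s * y) := by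
    intro y hy
    refine ⟨0, 0, ?_⟩
    rw [pow_zero, pow_zero, one_mul, one_mul, Int.modEq_iff_dvd]
    have h1 : d ∣ y - r := (abs_dvd d _).1 hy
    have h2 : s * y - s * r = s * (y - r) := by ring
    rw [h2]
    exact Dvd.dvd.mul_left h1 s
  have h1 : Same d (s * r) a := by
    have h2 := hsame (s * a) (by rw [← hr]; exact Int.dvd_self_sub_emod)
    rwa [← mul_assoc, hss, one_mul] at h2
  -- an integer of the class which meets `F`
  have h3d : ¬ (3 : ℤ) ∣ |d| := by rwa [dvd_abs]
  obtain ⟨j, hj0, hj2, hj3⟩ : ∃ j : ℤ, 0 ≤ j ∧ j ≤ 2 ∧ ¬ (3 : ℤ) ∣ (|d| * j + r) := by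
    by_contra hcon2
    push Not at hcon2
    have a0 := hcon2 0 le_rfl (by norm_num)
    have a1 := hcon2 1 (by norm_num) (by norm_num)
    apply h3d
    have := dvd_sub a1 a0
    ring_nf at this
    exact this
  set b := s * (|d| * j + r) with hb
  have hbpos : 0 < s * b := by
    rw [hb, ← mul_assoc, hss, one_mul]
    have h2 : 0 ≤ |d| * j := mul_nonneg hdpos.le hj0
    have h3 : |d| * j + r ≠ 0 := by intro h; exact hj3 (by rw [h]; exact dvd_zero 3)
    omega
  have hbF : b ∈ F := by
    apply hF2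
    have h2 : |b| = |d| * j + r := by
      have h4 : |s| = 1 := by rcases hs with rfl | rfl <;> simp
      have h3 : |b| = |s * b| := by rw [abs_mul s b, h4, one_mul]
      rw [h3, abs_of_pos hbpos, hb, ← mul_assoc, hss, one_mul]
    rw [h2]
    nlinarith
  have hb3 : ¬ (3 : ℤ) ∣ b := by
    rw [hb]
    intro h
    apply hj3
    have := Dvd.dvd.mul_left h s
    rwa [← mul_assoc, hss, one_mul] at this
  have hbs : Same d (s * r) b := hsame (|d| * j + r) ⟨j, by ring⟩
  exact (large hd hd3 (avoid_inv hF1) hs hrd ⟨a, haA, hsa, hk', h1⟩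
    ⟨b, fun h => h 0 hbF, hbpos, hb3, hbs⟩).not_approx (hF3 s hs r hrd)

/-- (1) Let `d` be odd and prime to `3`, let `S` be a set of integers with `x ∈ S ↔ T x ∈ S` for all `x`, `s = 1` or `s = -1` and
`0 ≤ r < |d|`. If there are an element `a` of `S` and an integer `b` not in `S`, both of the sign of `s`, prime to `3`, and equal
to `s r` modulo `d` up to factors `2` and `3`, then the set of the `n` with `s (|d| n + r) ∈ S` is hard. (2) For `d = 5`, for
`c = 1, 19, 23, 187, 347` and `r = 1, 2, 3, 4`, the set of the `n` such that the trajectory of `5 n + r` passes through `c` is hard.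
(3) For every odd `d` prime to `3` the following are equivalent: there is a finite set which every trajectory meets;
there is a finite set `F` with `T F ⊆ F`, containing all `x` with `|x| ≤ 3 |d|`, such that for all `s`, `r` the set of the `n` such
that the trajectory of `s (|d| n + r)` avoids `F` is in `AC0`; there is such an `F` for which all these sets are decided by
circuits of polynomial size and depth at most `a log k / log log k`, where `a < 1 / 2`; there is such an `F` for which all these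
sets are decided up to a proportion `1 / k ^ (1 - c)` of exceptions by circuits of the size and depth in the definition of
`Hard`. -/
theorem result :
    (∀ d : ℤ, Odd d → ¬ (3 : ℤ) ∣ d → ∀ S : Set ℤ, (∀ x, x ∈ S ↔ T d x ∈ S) → ∀ s : ℤ, (s = 1 ∨ s = -1) →
      ∀ r : ℕ, (r : ℤ) < |d| → (∃ a ∈ S, 0 < s * a ∧ ¬ (3 : ℤ) ∣ a ∧ Same d (s * r) a) →
        (∃ b ∉ S, 0 < s * b ∧ ¬ (3 : ℤ) ∣ b ∧ Same d (s * r) b) → Hard (part d s r S)) ∧
    (∀ c : ℤ, (c = 1 ∨ c = 19 ∨ c = 23 ∨ c = 187 ∨ c = 347) → ∀ r : ℕ, 1 ≤ r → r ≤ 4 →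
      Hard (part 5 1 r (Basin 5 c))) ∧
    (∀ d : ℤ, Odd d → ¬ (3 : ℤ) ∣ d →
      List.TFAE [∃ F : Finset ℤ, ∀ x : ℤ, ∃ k : ℕ, (T d)^[k] x ∈ F,
        Avoidable d AC0, Avoidable d Poly, Avoidable d Approx]) := by
  refine ⟨fun d hd hd3 S hS s hs r hr h1 h2 => large_hard (large hd hd3 hS hs hr h1 h2),
    fun c hc r h1 h2 => ex5 hc h1 h2, fun d hd hd3 => ?_⟩
  tfae_have 1 → 2 := by
    rintro ⟨F₀, hF₀⟩
    obtain ⟨F, g1, g2, g3⟩ := enlarge hF₀
    exact ⟨F, g1, g2, fun s _ r _ => Inf2.AC0_none fun n _ h => g3 _ h⟩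
  tfae_have 2 → 3 := by
    rintro ⟨F, g1, g2, g3⟩
    exact ⟨F, g1, g2, fun s hs r hr => Inf2.AC0.poly (g3 s hs r hr)⟩
  tfae_have 3 → 4 := by
    rintro ⟨F, g1, g2, g3⟩
    exact ⟨F, g1, g2, fun s hs r hr => Inf2.Poly.approx (g3 s hs r hr)⟩
  tfae_have 4 → 1 := fun h => avoid_to hd hd3 h
  tfae_finish

end Pool.Agent.Results.MP_d0d59f_nt.CircuitsGivenResidue
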