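import Mathlib
import Pool.Agent.H622.Td2

set_option autoImplicit false

/-!
# Where are the integers with large stopping time under the `3x+d` maps?

The stopping time of `x` under the `3x+d` map `T` is the least `j` with `|T^j x| < |x|`. Given that it is greater
than `k`, how large is `|T^k x / x|`? The conditional law of this growth factor is determined (a Yaglom limit
theorem), for all odd `d` and uniformly in `d`: it does not spread out as `k → ∞`; it is asymptotically an explicit
law on the numbers `3 ^ o / 2 ^ k > 1`, which does not depend on `d`, depends on `k` only through the fractional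
part of `k log 2 / log 3`, does not converge, and has the heavy tail `y ^ (-0.488...)`, so an infinite mean.
-/

namespace Pool.Agent.Results.MP_d0d59f_nt.GrowthFactorOfLateIntegers

open Filter Topology Finset

/-- the `3x+d` map -/
def T (d x : ℤ) : ℤ := if x % 2 = 0 then x / 2 else (3 * x + d) / 2

/-- the stopping time of `x` is greater than `k`: none of `|T x|, …, |T^k x|` is smaller than `|x|` -/
def StoppingTimeGT (d : ℤ) (k : ℕ) (x : ℤ) : Prop := ∀ j, 1 ≤ j → j ≤ k → |x| ≤ |(T d)^[j] x|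

/-- the number of odd numbers among the first `j` terms `x, T x, …, T^(j-1) x` -/
def odds (d : ℤ) (j : ℕ) (x : ℤ) : ℕ := ((range j).filter fun i => (T d)^[i] x % 2 = 1).card

/-- the growth factors `3 ^ (odds j x) / 2 ^ j`, `j ≤ k`, are at least `1` -/
def Survives (d : ℤ) (k : ℕ) (x : ℤ) : Prop := ∀ j ≤ k, 2 ^ j ≤ 3 ^ odds d j x

/-- the number of the `0`-`1` words of length `k` with `o` ones for which `2 ^ j ≤ 3 ^ i` whenever there are `i` ones
among the first `j` letters -/
def A : ℕ → ℕ → ℕ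
  | 0, 0 => 1
  | 0, _ + 1 => 0
  | _ + 1, 0 => 0
  | k + 1, o + 1 => if 2 ^ (k + 1) ≤ 3 ^ (o + 1) then A k (o + 1) + A k o else 0

/-- the number of the `0`-`1` words of length `k` for which `2 ^ j ≤ 3 ^ i` whenever there are `i` ones among the
first `j` letters -/
def survivors (k : ℕ) : ℕ := ∑ o ∈ range (k + 1), A k o

/-- the critical proportion of odd steps -/
noncomputable def θ : ℝ := Real.log 2 / Real.log 3

/-- the entropy (in natural units) of `θ` -/
noncomputable def H : ℝ := -(θ * Real.log θ) - (1 - θ) * Real.log (1 - θ)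

/-- `(1 - θ) / θ` -/
noncomputable def q : ℝ := (1 - θ) / θ

/-- the probability of survival up to the time `j` with final position `< w`, in the critical random walk
(steps `1 - θ` and `-θ` with the probabilities `θ` and `1 - θ`) -/
noncomputable def greenTerm (w : ℝ) (j : ℕ) : ℝ :=
  ∑ o ∈ range (j + 1), if (o : ℝ) - j * θ < w then (A j o : ℝ) * (θ ^ o * (1 - θ) ^ (j - o)) else 0

/-- the expected number of the visits of `[0, w)` of the critical random walk before it becomes negative -/
noncomputable def green (w : ℝ) : ℝ := ∑' j, greenTerm w j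

/-- the weights of the limit law -/
noncomputable def weight (k o : ℕ) : ℝ :=
  if (k : ℝ) * θ < o then q ^ ((o : ℝ) - k * θ) * green ((o : ℝ) - k * θ) else 0

/-- the limit law: the probability of the growth factor `3 ^ o / 2 ^ k` -/
noncomputable def law (k o : ℕ) : ℝ := weight k o / ∑' p, weight k p

/-- the probability, in the limit law, of the growth factors `> y` -/
noncomputable def tail (k : ℕ) (y : ℝ) : ℝ := ∑' o : ℕ, if y < (3 : ℝ) ^ o / 2 ^ k then law k o else 0

/-- the exponent of the tail -/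
noncomputable def α : ℝ := Real.log (θ / (1 - θ)) / Real.log 3

open scoped Classical in
/-- the nonzero integers of the interval `[a, a + N)` with stopping time `> k` -/
noncomputable def late (d : ℤ) (k : ℕ) (a : ℤ) (N : ℕ) : Finset ℤ :=
  (Ico a (a + N)).filter fun x => x ≠ 0 ∧ StoppingTimeGT d k x

namespace Aux

open Pool.Agent.H622.St

theorem A_eq (k o : ℕ) : A k o = An k o := by
  induction k generalizing o with
  | zero =>
    cases o with
    | zero =>
      rfl
    | succ o => rw [An_zero (by omega)]; rfl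
  | succ k ih =>
    rw [An_succ]
    cases o with
    | zero =>
      rw [if_neg]
      · rfl
      · have : 1 < 2 ^ (k + 1) := Nat.one_lt_two_pow (by omega)
        simp
    | succ o =>
      have h1 : (2 ^ (k + 1) ≤ 3 ^ (o + 1)) ↔ (2 ^ (k + 1) < 3 ^ (o + 1)) := by
        constructor
        · intro h
          rcases h.lt_or_eq with h2 | h2
          · exact h2
          · exact absurd h2 (Pool.Agent.H622.St.ne_pow (by omega))
        · exact fun h => h.le
      show (if 2 ^ (k + 1) ≤ 3 ^ (o + 1) then A k (o + 1) + A k o else 0) = _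
      by_cases h2 : 2 ^ (k + 1) < 3 ^ (o + 1)
      · rw [if_pos (h1.2 h2), if_pos h2, if_neg (Nat.succ_ne_zero o), Nat.add_sub_cancel, ih, ih]
      · rw [if_neg (fun h => h2 (h1.1 h)), if_neg h2]

theorem survivors_eq (k : ℕ) : survivors k = Pool.Agent.H622.St.survivors k := by
  rw [survivors_sum]
  unfold survivors
  simp only [A_eq]

theorem th_eq : θ = th := rfl
theorem q_eq : q = Pool.Agent.H622.St.q := rfl

theorem H_eq : H = He := by
  unfold He H
  rw [th_eq, Real.binEntropy, Real.log_inv, Real.log_inv]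
  ring

theorem greenTerm_eq (w : ℝ) (j : ℕ) : greenTerm w j = Rt w j := by
  unfold greenTerm Rt b
  simp only [A_eq, th_eq]

theorem green_eq (w : ℝ) : green w = Rf w := by
  unfold green Rf
  simp only [greenTerm_eq]

theorem weight_eq (k o : ℕ) : weight k o = Lw k o := by
  unfold weight Lw
  simp only [green_eq, th_eq, q_eq]

theorem law_eq (k o : ℕ) : law k o = Lw k o / Z k := by
  unfold law Z
  simp only [weight_eq]

theorem logw (k o : ℕ) : Real.log ((3 : ℝ) ^ o / 2 ^ k) = o * Real.log 3 - k * Real.log 2 := by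
  rw [Real.log_div (by positivity) (by positivity), Real.log_pow, Real.log_pow]

theorem logw' (k o : ℕ) : o * Real.log 3 - k * Real.log 2 = ((o : ℝ) - k * th) * Real.log 3 := by
  unfold th
  have := log3_pos
  field_simp

theorem lt_iff (k o : ℕ) {y : ℝ} (hy : 0 < y) :
    y < (3 : ℝ) ^ o / 2 ^ k ↔ Real.log y / Real.log 3 < (o : ℝ) - k * th := by
  rw [← Real.log_lt_log_iff hy (by positivity), logw, logw', div_lt_iff₀ log3_pos]

theorem le_iff (k o : ℕ) : (3 : ℝ) ^ o / 2 ^ k ≤ Real.sqrt 3 ↔ (o : ℝ) - k * th ≤ 1 / 2 := by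
  rw [← Real.log_le_log_iff (by positivity) (by positivity), logw, logw', Real.log_sqrt (by norm_num)]
  constructor
  · intro h
    have := log3_pos
    by_contra hcon
    push Not at hcon
    have := mul_lt_mul_of_pos_right hcon log3_pos
    linarith
  · intro h
    have := mul_le_mul_of_nonneg_right h log3_pos.le
    linarith

theorem tail_eq (k : ℕ) {y : ℝ} (hy : 0 < y) : tail k y = Pool.Agent.H622.St.tail k (Real.log y / Real.log 3) := by
  unfold tail Pool.Agent.H622.St.tail
  apply tsum_congr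
  intro o
  simp only [lt_iff k o hy, law_eq]

theorem rpow_eq {y : ℝ} (hy : 0 < y) (c : ℝ) :
    y ^ (-(c * α)) = Pool.Agent.H622.St.q ^ (c * (Real.log y / Real.log 3)) := by
  have h1 := th_pos
  have h2 : 0 < 1 - th := by linarith [th_lt_one]
  have h3 := log3_pos
  rw [Real.rpow_def_of_pos hy, Real.rpow_def_of_pos q_pos]
  congr 1
  have e : Real.log (θ / (1 - θ)) = -Real.log Pool.Agent.H622.St.q := by
    unfold Pool.Agent.H622.St.q
    rw [th_eq, ← Real.log_inv, inv_div]
  unfold α
  rw [e]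
  field_simp

open scoped Classical in
theorem late_eq (d : ℤ) (k : ℕ) (a : ℤ) (N : ℕ) : late d k a N = Pool.Agent.H622.Td.late d k a N := by
  unfold late Pool.Agent.H622.Td.late
  apply filter_congr
  intro x _
  unfold StoppingTimeGT Pool.Agent.H622.Td.Stayz
  constructor
  · rintro ⟨h0, h⟩
    refine ⟨h0, fun j hj => ?_⟩
    rcases Nat.eq_zero_or_pos j with h1 | h1
    · rw [h1]; exact le_rfl
    · exact h j h1 hj
  · exact fun h => ⟨h.1, fun j _ hj => h.2 j hj⟩

end Aux

open Aux in
open scoped Classical in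
/-- THE GROWTH FACTOR OF THE INTEGERS WITH LARGE STOPPING TIME UNDER THE `3x+d` MAPS.
(1) For all odd `d` there are `A k o` residues modulo `2 ^ k` which survive and have `o` odd steps; and an exact
recursion for these numbers.
(2) The limit laws are well defined: the series converge, `green` is at least one and grows slower than every
exponential function, the law has total mass one.
(3) `A k o = k ^ (-3/2) * e ^ (k H) * (c * weight k o + o(1))`, in the sense of `ℓ¹`, `c = 1/√(2πθ(1-θ))`.
(4) The law of the growth factor of the surviving residues tends to the limit law in total variation.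
(5) For all odd `d` with `|d| ≤ e ^ ((H - η) k)` and all intervals with at least `K 2 ^ k` elements: the number of
the integers of the interval with stopping time `> k` is as expected, and the law of `log |T^k x / x|` for these
integers is close to the limit law in the bounded Lipschitz distance.
(6) The tail of the limit law at `y` is between `y ^ (-(1+δ) α)` and `y ^ (-(1-δ) α)`, uniformly in `k`.
(7) The limit law does not converge: infinitely often it gives no mass to the growth factors `≤ √3`,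
infinitely often the mass is at least `c'`.
(8) For all odd `d` the number of the residues modulo `2 ^ (k + 1)` which survive up to time `k` but not up to time
`k + 1` is `A k o` if there is a power of three `3 ^ o` between `2 ^ k` and `2 ^ (k + 1)`, and zero otherwise. -/
theorem result :
    ((∀ (d : ℤ) (k o : ℕ), d % 2 = 1 →
      ((Ico (0 : ℤ) (2 ^ k)).filter fun x => Survives d k x ∧ odds d k x = o).card = A k o) ∧
      ∀ k o : ℕ, k * A k o = ∑ j ∈ range k, ∑ p ∈ antidiagonal o,
        A j p.1 * (if 2 ^ (k - j) < 3 ^ p.2 then (k - j).choose p.2 else 0)) ∧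
    ((∀ w : ℝ, Summable (greenTerm w)) ∧ (∀ w : ℝ, 0 < w → 1 ≤ green w) ∧
      (∀ s : ℝ, 0 < s → s < 1 → ∃ C : ℝ, ∀ w : ℝ, green w ≤ C * s ^ (-w)) ∧
      ∀ k : ℕ, Summable (weight k) ∧ (∀ o, 0 ≤ law k o) ∧ ∑' o, law k o = 1) ∧
    Tendsto (fun k : ℕ => ∑' o : ℕ, |(k : ℝ) ^ (3 / 2 : ℝ) * Real.exp (-(k * H)) * A k o -
      (Real.sqrt (2 * Real.pi * (θ * (1 - θ))))⁻¹ * weight k o|) atTop (𝓝 0) ∧
    Tendsto (fun k : ℕ => ∑' o : ℕ, |(A k o : ℝ) / survivors k - law k o|) atTop (𝓝 0) ∧
    (∀ ε L η : ℝ, 0 < ε → 0 ≤ L → 0 < η → ∃ K : ℕ, ∀ (d : ℤ) (k : ℕ) (a : ℤ) (N : ℕ) (g : ℝ → ℝ),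
      d % 2 = 1 → K ≤ k → |(d : ℝ)| ≤ Real.exp ((H - η) * k) → K * 2 ^ k ≤ N →
      (∀ y, |g y| ≤ 1) → (∀ y z, |g y - g z| ≤ L * |y - z|) →
      (late d k a N).Nonempty ∧
      |((late d k a N).card : ℝ) - (N : ℝ) / 2 ^ k * survivors k| ≤ ε * ((N : ℝ) / 2 ^ k * survivors k) ∧
      |(∑ x ∈ late d k a N, g (Real.log (|(((T d)^[k] x : ℤ) : ℝ)| / |(x : ℝ)|))) / (late d k a N).card -
        ∑' o : ℕ, law k o * g (Real.log ((3 : ℝ) ^ o / 2 ^ k))| ≤ ε) ∧
    (∀ δ : ℝ, 0 < δ → δ < 1 → ∃ y₀ : ℝ, ∀ (k : ℕ) (y : ℝ), y₀ ≤ y →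
      y ^ (-((1 + δ) * α)) ≤ tail k y ∧ tail k y ≤ y ^ (-((1 - δ) * α))) ∧
    ((∀ K : ℕ, ∃ k, K ≤ k ∧ ∑' o : ℕ, (if (3 : ℝ) ^ o / 2 ^ k ≤ Real.sqrt 3 then law k o else 0) = 0) ∧
      ∃ c' : ℝ, 0 < c' ∧ ∀ K : ℕ, ∃ k, K ≤ k ∧
        c' ≤ ∑' o : ℕ, (if (3 : ℝ) ^ o / 2 ^ k ≤ Real.sqrt 3 then law k o else 0)) ∧
    ∀ (d : ℤ) (k : ℕ), d % 2 = 1 →
      (∀ o : ℕ, 2 ^ k ≤ 3 ^ o → 3 ^ o ≤ 2 ^ (k + 1) →
        ((Ico (0 : ℤ) (2 ^ (k + 1))).filter fun x => Survives d k x ∧ ¬ Survives d (k + 1) x).card = A k o) ∧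
      ((∀ o : ℕ, ¬ (2 ^ k ≤ 3 ^ o ∧ 3 ^ o ≤ 2 ^ (k + 1))) →
        ((Ico (0 : ℤ) (2 ^ (k + 1))).filter fun x => Survives d k x ∧ ¬ Survives d (k + 1) x).card = 0) := by
  have hlow : ∀ k : ℕ, ∑' o : ℕ, (if (3 : ℝ) ^ o / 2 ^ k ≤ Real.sqrt 3 then law k o else 0) =
      Pool.Agent.H622.St.low k := by
    intro k
    unfold Pool.Agent.H622.St.low
    apply tsum_congr
    intro o
    simp only [le_iff, law_eq]
  refine ⟨⟨?_, ?_⟩, ⟨?_, ?_, ?_, ?_⟩, ?_, ?_, ?_, ?_, ⟨?_, ?_⟩, ?_⟩
  · intro d k o hd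
    rw [A_eq]
    exact Pool.Agent.H622.Td.An_res hd k o
  · intro k o
    simp only [A_eq]
    exact Pool.Agent.H622.St.exact2 k o
  · intro w
    exact (Pool.Agent.H622.St.Rt_summable w).congr fun j => (greenTerm_eq w j).symm
  · intro w hw
    rw [green_eq]; exact Pool.Agent.H622.St.Rf_ge_one hw
  · intro s hs hs1
    obtain ⟨C, -, h⟩ := Pool.Agent.H622.St.Rf_le hs hs1
    exact ⟨C, fun w => by rw [green_eq]; exact h w⟩
  · intro k
    refine ⟨(Pool.Agent.H622.St.Lw_summable k).congr fun o => (weight_eq k o).symm, ?_, ?_⟩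
    · intro o
      rw [law_eq]
      exact div_nonneg (Pool.Agent.H622.St.Lw_nonneg _ _) (Pool.Agent.H622.St.Z_pos k).le
    · simp only [law_eq]
      rw [tsum_div_const]
      exact div_self (Pool.Agent.H622.St.Z_pos k).ne'
  · refine Pool.Agent.H622.St.df_tendsto.congr fun k => ?_
    apply tsum_congr
    intro o
    unfold Pool.Agent.H622.St.df Pool.Agent.H622.St.c0
    rw [A_eq, weight_eq, H_eq]
    have e : (k : ℝ) ^ (3 / 2 : ℝ) = k * Real.sqrt k := by
      rcases Nat.eq_zero_or_pos k with h | h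
      · subst h
        rw [Nat.cast_zero, Real.zero_rpow (by norm_num), zero_mul]
      · have hk' : (0 : ℝ) < k := by exact_mod_cast h
        rw [Real.sqrt_eq_rpow, show (3 / 2 : ℝ) = 1 + 1 / 2 by norm_num, Real.rpow_add hk', Real.rpow_one]
    rw [e]
    have h2 : Pool.Agent.H622.St.th = θ := rfl
    rw [h2]
    congr 1
    ring
  · refine Pool.Agent.H622.St.tv_tendsto.congr fun k => ?_
    apply tsum_congr
    intro o
    rw [A_eq, survivors_eq, law_eq]
  · intro ε L η hε hL hη
    obtain ⟨K, hK⟩ := Pool.Agent.H622.Td.integers_law hε hL hη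
    refine ⟨K, fun d k a N g hd hk hdk hx hg hgL => ?_⟩
    rw [H_eq] at hdk
    obtain ⟨h1, h1', h2⟩ := hK d k a N g hd hk hdk hx hg hgL
    rw [late_eq, survivors_eq]
    have h3 : (0 : ℝ) < ((Pool.Agent.H622.Td.late d k a N).card : ℝ) := by exact_mod_cast h1
    refine ⟨card_pos.1 h1, h1', ?_⟩
    simp only [law_eq, logw]
    change |(∑ x ∈ Pool.Agent.H622.Td.late d k a N,
      g (Real.log (|(((Pool.Agent.H622.Td.S d)^[k] x : ℤ) : ℝ)| / |(x : ℝ)|))) /
        ((Pool.Agent.H622.Td.late d k a N).card : ℝ) -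
      ∑' o : ℕ, Pool.Agent.H622.St.Lw k o / Pool.Agent.H622.St.Z k *
        g (o * Real.log 3 - k * Real.log 2)| ≤ ε
    set M : ℝ := ((Pool.Agent.H622.Td.late d k a N).card : ℝ)
    set G : ℝ := ∑' o : ℕ, Pool.Agent.H622.St.Lw k o / Pool.Agent.H622.St.Z k *
      g (o * Real.log 3 - k * Real.log 2)
    set Sg : ℝ := ∑ x ∈ Pool.Agent.H622.Td.late d k a N,
      g (Real.log (|(((Pool.Agent.H622.Td.S d)^[k] x : ℤ) : ℝ)| / |(x : ℝ)|))
    have e : Sg / M - G = (Sg - M * G) / M := by
      field_simp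
    rw [e, abs_div, abs_of_pos h3, div_le_iff₀ h3]
    exact h2
  · intro δ hδ hδ1
    obtain ⟨t1, ht1⟩ := Pool.Agent.H622.St.tail_lower hδ
    obtain ⟨t2, ht2⟩ := Pool.Agent.H622.St.tail_upper hδ hδ1
    refine ⟨Real.exp (max (max t1 t2) 0 * Real.log 3), fun k y hy => ?_⟩
    have hy0 : 0 < y := lt_of_lt_of_le (Real.exp_pos _) hy
    have h3 : max (max t1 t2) 0 ≤ Real.log y / Real.log 3 := by
      rw [le_div_iff₀ Pool.Agent.H622.St.log3_pos, Real.le_log_iff_exp_le hy0]
      exact hy
    have h4 : t1 ≤ Real.log y / Real.log 3 := ((le_max_left _ _).trans (le_max_left _ _)).trans h3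
    have h5 : t2 ≤ Real.log y / Real.log 3 := ((le_max_right _ _).trans (le_max_left _ _)).trans h3
    have h6 : 0 ≤ Real.log y / Real.log 3 := (le_max_right _ _).trans h3
    rw [tail_eq k hy0, rpow_eq hy0, rpow_eq hy0]
    exact ⟨ht1 k _ h4 h6, ht2 k _ h5 h6⟩
  · intro K
    obtain ⟨k, hk, h⟩ := Pool.Agent.H622.St.low_zero K
    exact ⟨k, hk, by rw [hlow]; exact h⟩
  · obtain ⟨c, hc, h⟩ := Pool.Agent.H622.St.low_pos
    refine ⟨c, hc, fun K => ?_⟩
    obtain ⟨k, hk, h2⟩ := h K
    exact ⟨k, hk, by rw [hlow]; exact h2⟩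
  · intro d k hd
    refine ⟨fun o h1 h2 => ?_, fun h => ?_⟩
    · rw [A_eq]
      exact (Pool.Agent.H622.Td.stops_res hd k).trans (Pool.Agent.H622.St.stops_some h1 h2)
    · exact (Pool.Agent.H622.Td.stops_res hd k).trans (Pool.Agent.H622.St.stops_none h)

end Pool.Agent.Results.MP_d0d59f_nt.GrowthFactorOfLateIntegers
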