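import Mathlib
import Pool.Agent.H556.KC.Defs
import Pool.Agent.H556.KD.Scale
import Pool.Agent.H556.KD.Sharp

/-!
# Cycles of the `3x+d` maps whose parity word is a product of `m` powers: the exponent `m`

Let `T = T_d`, `T ^ n x = x`, let `K` be the number of odd terms among `x, T x, …, T ^ (n - 1) x` and
`D = |d| / gcd (x, d)`, the denominator of the corresponding rational cycle of the `3x+1` map.

(1) For all `m`, `U` and `ε > 0` there is `B` such that, for all odd `d`: if `D ≥ B` and the parity word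
of `x` (of length `n`) is a product of at most `m` powers of words of length at most `U`, then
`2 ^ n ≤ D ^ (m + ε)` and `3 ^ K ≤ D ^ (m + ε)`.

(2) The exponent `m` is sharp for all even `m = 2 j`: for `d = 8 ^ a + 9 ^ a` and
`x = - (7 * 8 ^ a + 5 * 9 ^ a)` we have `gcd (x, d) = 1`, `T ^ (6 a j) x = x`, the parity word is
`((110) ^ a (101) ^ a) ^ j`, `K = 4 a j` and `3 ^ K ≥ (D / 2) ^ m`.

Proof of (1). The equation of the cycle is `(2 ^ n - 3 ^ K) x = d V`, and modulo `2 ^ n - 3 ^ K` a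
bounded multiple of `V` is a sum of `m` terms `c 2 ^ i 3 ^ j` with bounded `c`, so
`(2 ^ n - 3 ^ K) / D` divides such a sum. We show that the gcd of `2 ^ n - 3 ^ K` and a sum of `m` terms
which it does not divide is at most `max (2 ^ n, 3 ^ K) ^ (1 - 1 / m + ε)`: by the subspace theorem it
is essentially the value of the gcd of a binomial `1 - κ X ^ e` and a polynomial with `m` terms, the
exponents of which can be shifted away from a gap of length `e / m` modulo `e`.
-/

set_option autoImplicit false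

namespace Pool.Agent.Results.MP_d0d59f_nt.SharpExponentFewPowers

open Pool.Agent.H556.KC

theorem result :
    (∀ (m U : ℕ) (ε : ℝ), 0 < ε →
      ∃ B : ℕ, ∀ d : ℤ, Odd d → ∀ x : ℤ, ∀ n : ℕ, 1 ≤ n → (T d)^[n] x = x →
        (B : ℝ) ≤ |(d : ℝ)| / Int.gcd x d → FewPowers m U (word d x n) →
        (2 : ℝ) ^ n ≤ (|(d : ℝ)| / Int.gcd x d) ^ ((m : ℝ) + ε) ∧
        (3 : ℝ) ^ (word d x n).count 1 ≤ (|(d : ℝ)| / Int.gcd x d) ^ ((m : ℝ) + ε)) ∧
    (∀ a j : ℕ, 1 ≤ a → ∃ d x : ℤ, d = 8 ^ a + 9 ^ a ∧ x = -(7 * 8 ^ a + 5 * 9 ^ a) ∧ Odd d ∧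
      (T d)^[6 * a * j] x = x ∧ Int.gcd x d = 1 ∧ FewPowers (2 * j) 3 (word d x (6 * a * j)) ∧
      (word d x (6 * a * j)).count 1 = 4 * a * j ∧
      (|(d : ℝ)| / 2) ^ (2 * j) ≤ 3 ^ (4 * a * j)) := by
  refine ⟨fun m U ε hε => ?_, fun a j ha => ?_⟩
  · obtain ⟨B, hB⟩ := Pool.Agent.H556.KD.general m U hε
    refine ⟨B, fun k hk x n hn hx hkx hw => ?_⟩
    have h1 := hB k (Int.odd_iff.1 hk) x (by
      have hg0 : Int.gcd x k ≠ 0 := by
        rw [Ne, Int.gcd_eq_zero_iff]
        rintro ⟨-, rfl⟩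
        revert hk
        decide
      have hg : (0 : ℝ) < Int.gcd x k := by exact_mod_cast Nat.pos_of_ne_zero hg0
      rw [le_div_iff₀ hg] at hkx
      exact_mod_cast hkx) n hn hx hw
    exact ⟨(le_max_left _ _).trans h1, (le_max_right _ _).trans h1⟩
  · exact ⟨_, _, rfl, rfl, Pool.Agent.H556.KD.sharp ha⟩

end Pool.Agent.Results.MP_d0d59f_nt.SharpExponentFewPowers
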